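import Mathlib

set_option autoImplicit false

/-!
Points of finitely generated algebras over an algebraically closed field and Chevalley's
theorem: for an injective map of finitely generated domains almost every point lifts.
-/

namespace H96

/-- A maximal ideal is the kernel of a point. -/
theorem exists_pt {k : Type*} [Field k] [IsAlgClosed k] {B : Type*} [CommRing B] [Algebra k B]
    [Algebra.FiniteType k B] (M : Ideal B) [hM : M.IsMaximal] : ∃ ψ : B →ₐ[k] k, RingHom.ker ψ = M := by
  let _ : Field (B ⧸ M) := Ideal.Quotient.field M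
  have h1 : Algebra.FiniteType k (B ⧸ M) := inferInstance
  have h2 : Module.Finite k (B ⧸ M) := finite_of_finite_type_of_isJacobsonRing k (B ⧸ M)
  have h3 : Function.Bijective (algebraMap k (B ⧸ M)) :=
    IsAlgClosed.algebraMap_bijective_of_isIntegral
  let e : k ≃ₐ[k] (B ⧸ M) := AlgEquiv.ofBijective (Algebra.ofId k (B ⧸ M)) h3
  refine ⟨(e.symm : (B ⧸ M) →ₐ[k] k).comp (Ideal.Quotient.mkₐ k M), ?_⟩
  ext b
  rw [RingHom.mem_ker]
  change e.symm (Ideal.Quotient.mk M b) = 0 ↔ b ∈ M
  rw [EmbeddingLike.map_eq_zero_iff, Ideal.Quotient.eq_zero_iff_mem]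

/-- A nonzero element of a finitely generated domain does not vanish at some point. -/
theorem exists_pt_ne {k : Type*} [Field k] [IsAlgClosed k] {B : Type*} [CommRing B]
    [IsDomain B] [Algebra k B] [Algebra.FiniteType k B] {b : B} (hb : b ≠ 0) : ∃ ψ : B →ₐ[k] k, ψ b ≠ 0 := by
  have hJ : IsJacobsonRing B := isJacobsonRing_of_finiteType (A := k)
  have h1 : (⊥ : Ideal B).jacobson = ⊥ :=
    hJ.out Ideal.isPrime_bot.isRadical
  have h2 : b ∉ (⊥ : Ideal B).jacobson := by rw [h1]; exact hb
  rw [Ideal.jacobson, Ideal.mem_sInf] at h2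
  push Not at h2
  obtain ⟨M, ⟨-, hM⟩, hbM⟩ := h2
  obtain ⟨ψ, hψ⟩ := exists_pt (k := k) M
  refine ⟨ψ, fun h => hbM ?_⟩
  rw [← hψ]
  exact h

/-- Chevalley: for an injective map of finitely generated domains almost every point lifts. -/
theorem exists_lift {k : Type*} [Field k] [IsAlgClosed k] {A B : Type*} [CommRing A]
    [IsDomain A] [Algebra k A] [Algebra.FiniteType k A] [CommRing B] [IsDomain B] [Algebra k B]
    [Algebra.FiniteType k B]
    (f : A →ₐ[k] B) (hf : Function.Injective f) :
    ∃ h : A, h ≠ 0 ∧ ∀ x : A →ₐ[k] k, x h ≠ 0 → ∃ ψ : B →ₐ[k] k, ψ.comp f = x := by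
  have hN : IsNoetherianRing A := Algebra.FiniteType.isNoetherianRing k A
  have hft : (f : A →+* B).FiniteType := by
    have h0 : (algebraMap k B).FiniteType := RingHom.finiteType_algebraMap.2 inferInstance
    have h1 : ((f : A →+* B).comp (algebraMap k A)) = algebraMap k B := f.comp_algebraMap
    exact RingHom.FiniteType.of_comp_finiteType (h1 ▸ h0)
  have hfp : (f : A →+* B).FinitePresentation := RingHom.FinitePresentation.of_finiteType.1 hft
  obtain ⟨S, hS⟩ := PrimeSpectrum.exists_constructibleSetData_iff.2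
    (PrimeSpectrum.isConstructible_range_comap hfp)
  have hbot : (⊥ : PrimeSpectrum A) ∈ S.toSet := by
    rw [hS]
    refine ⟨⊥, ?_⟩
    ext a
    change f a = 0 ↔ a = 0
    exact map_eq_zero_iff f hf
  rw [PrimeSpectrum.ConstructibleSetData.toSet, Set.mem_iUnion₂] at hbot
  obtain ⟨C, hC, hg, hfC⟩ := hbot
  refine ⟨C.f, ?_, ?_⟩
  · rintro h
    refine hfC ?_
    rw [PrimeSpectrum.mem_zeroLocus, Set.singleton_subset_iff]
    rw [h]
    exact Ideal.zero_mem _
  · intro x hx
    have hker : (RingHom.ker x).IsMaximal := by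
      have hsur : Function.Surjective x := fun c => ⟨algebraMap k A c, by simp⟩
      exact RingHom.ker_isMaximal_of_surjective x hsur
    let p : PrimeSpectrum A := ⟨RingHom.ker x, hker.isPrime⟩
    have hp : p ∈ S.toSet := by
      rw [PrimeSpectrum.ConstructibleSetData.toSet, Set.mem_iUnion₂]
      refine ⟨C, hC, ?_, ?_⟩
      · rw [PrimeSpectrum.mem_zeroLocus] at hg ⊢
        intro y hy
        have h0 : y = 0 := hg hy
        rw [h0]
        exact Ideal.zero_mem _
      · rw [PrimeSpectrum.mem_zeroLocus, Set.singleton_subset_iff]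
        exact hx
    rw [hS] at hp
    obtain ⟨q, hq⟩ := hp
    obtain ⟨M, hM, hqM⟩ := q.asIdeal.exists_le_maximal q.isPrime.ne_top
    obtain ⟨ψ, hψ⟩ := exists_pt (k := k) M
    refine ⟨ψ, ?_⟩
    have hle : RingHom.ker x ≤ RingHom.ker (ψ.comp f) := by
      intro a ha
      have h1 : a ∈ (PrimeSpectrum.comap (f : A →+* B) q).asIdeal := by rw [hq]; exact ha
      have h2 : f a ∈ RingHom.ker ψ := by rw [hψ]; exact hqM h1
      exact h2
    ext a
    have h1 : a - algebraMap k A (x a) ∈ RingHom.ker x := by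
      rw [RingHom.mem_ker, map_sub]
      simp
    have h2 := hle h1
    rw [RingHom.mem_ker, map_sub, AlgHom.commutes, sub_eq_zero] at h2
    exact h2

end H96
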