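import Pool.Agent.Helper27.LCY.Defs
import Pool.Agent.Helper96.LCY.Lift

set_option autoImplicit false

/-!
From a dominating family of images of the multiplicative group to images through every general
point (MP_f7e214_ag).
-/

open MvPolynomial LCY

namespace H96

/-! Laurent polynomials. -/

theorem eval2_hom {R S S' : Type*} [CommRing R] [CommRing S] [CommRing S'] (g : R →+* S)
    (u : Sˣ) (θ : S →+* S') (q : LaurentPolynomial R) :
    θ (LaurentPolynomial.eval₂ g u q) =
      LaurentPolynomial.eval₂ (θ.comp g) (Units.map (θ : S →* S') u) q := by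
  induction q using LaurentPolynomial.induction_on' with
  | add p q hp hq => rw [map_add, map_add, map_add, hp, hq]
  | C_mul_T n a =>
    rw [LaurentPolynomial.eval₂_C_mul_T, LaurentPolynomial.eval₂_C_mul_T, map_mul,
      RingHom.comp_apply, ← map_zpow]
    rfl

/-- The unit `T` of the Laurent polynomials. -/
noncomputable def tU (R : Type*) [CommRing R] : (LaurentPolynomial R)ˣ :=
  (LaurentPolynomial.isUnit_T 1).unit

theorem tU_val (R : Type*) [CommRing R] : ((tU R : (LaurentPolynomial R)ˣ) : LaurentPolynomial R)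
    = LaurentPolynomial.T 1 := rfl

theorem dom_laurent (R : Type*) [CommRing R] [IsDomain R] : IsDomain (LaurentPolynomial R) := by
  have h1 : NoZeroDivisors (LaurentPolynomial R) :=
    inferInstanceAs (NoZeroDivisors (AddMonoidAlgebra R ℤ))
  exact NoZeroDivisors.to_isDomain _

theorem ft_laurent (R : Type*) [CommRing R] :
    Algebra.FiniteType R (LaurentPolynomial R) := by
  have h1 : Algebra.FiniteType R (Polynomial R) := inferInstance
  have h2 : Algebra.FiniteType (Polynomial R) (LaurentPolynomial R) :=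
    IsLocalization.finiteType_of_monoid_fg
      (Submonoid.powers (Polynomial.X : Polynomial R)) (LaurentPolynomial R)
  have h3 : IsScalarTower R (Polynomial R) (LaurentPolynomial R) :=
    IsScalarTower.of_algebraMap_eq fun r => by
      rw [LaurentPolynomial.algebraMap_eq_toLaurent, Polynomial.algebraMap_eq,
        Polynomial.toLaurent_C]
      rfl
  exact Algebra.FiniteType.trans h1 h2

/-! Evaluation at multiples of a point. -/

variable {N : ℕ}

theorem eval_smul_hom {f : S N} {m : ℕ} (hf : f.IsHomogeneous m) (c : ℂ)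
    (p : Fin (N + 1) → ℂ) : eval (c • p) f = c ^ m * eval p f := by
  rw [eval_eq', eval_eq', Finset.mul_sum]
  refine Finset.sum_congr rfl fun d hd => ?_
  have h1 : ∏ i, (c • p) i ^ d i = c ^ m * ∏ i, p i ^ d i := by
    have h2 : ∑ i, d i = m := by
      have := hf (mem_support_iff.1 hd)
      rw [← this, Finsupp.weight_apply]
      simp [Finsupp.sum_fintype]
    simp only [Pi.smul_apply, smul_eq_mul, mul_pow]
    rw [Finset.prod_mul_distrib, Finset.prod_pow_eq_pow_sum, h2]
  rw [h1]
  ring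

theorem eval_smul (f : S N) (c : ℂ) (p : Fin (N + 1) → ℂ) :
    eval (c • p) f = ∑ m ∈ Finset.range (f.totalDegree + 1),
      c ^ m * eval p (homogeneousComponent m f) := by
  conv_lhs => rw [← sum_homogeneousComponent (φ := f)]
  rw [map_sum]
  exact Finset.sum_congr rfl fun m _ =>
    eval_smul_hom (homogeneousComponent_isHomogeneous m f) c p

theorem exists_smul_ne {f : S N} {p : Fin (N + 1) → ℂ} {m : ℕ}
    (h : eval p (homogeneousComponent m f) ≠ 0) : ∃ c : ℂ, c ≠ 0 ∧ eval (c • p) f ≠ 0 := by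
  by_contra hc
  push Not at hc
  let q : Polynomial ℂ := ∑ m ∈ Finset.range (f.totalDegree + 1),
    Polynomial.C (eval p (homogeneousComponent m f)) * Polynomial.X ^ m
  have hq : ∀ c : ℂ, (Polynomial.X * q).eval c = 0 := by
    intro c
    rw [Polynomial.eval_mul, Polynomial.eval_X]
    by_cases h0 : c = 0
    · rw [h0, zero_mul]
    · have h1 := hc c h0
      rw [eval_smul] at h1
      have h2 : q.eval c = 0 := by
        rw [← h1, Polynomial.eval_finsetSum]
        refine Finset.sum_congr rfl fun k _ => ?_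
        rw [Polynomial.eval_mul, Polynomial.eval_C, Polynomial.eval_pow, Polynomial.eval_X]
        ring
      rw [h2, mul_zero]
  have h0 : Polynomial.X * q = 0 := Polynomial.funext fun c => by rw [hq c, Polynomial.eval_zero]
  have hq0 : q = 0 := by
    rcases mul_eq_zero.1 h0 with h1 | h1
    · exact absurd h1 Polynomial.X_ne_zero
    · exact h1
  have hm : m ∈ Finset.range (f.totalDegree + 1) := by
    rw [Finset.mem_range]
    by_contra hm
    exact h (by rw [homogeneousComponent_eq_zero m f (by omega), map_zero])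
  have h3 : q.coeff m = eval p (homogeneousComponent m f) := by
    simp only [q, Polynomial.finsetSum_coeff, Polynomial.coeff_C_mul_X_pow]
    rw [Finset.sum_ite_eq, if_pos hm]
  rw [hq0, Polynomial.coeff_zero] at h3
  exact h h3.symm

theorem eval_smul_zero {Y : Var N} {f : S N} (hf : f ∈ Y.I) {p : Fin (N + 1) → ℂ}
    (hp : Y.IsPt p) (c : ℂ) : eval (c • p) f = 0 := by
  rw [eval_smul]
  refine Finset.sum_eq_zero fun m _ => ?_
  rw [hp.2 _ (Y.homogeneous f hf m), mul_zero]

theorem exists_comp {Y : Var N} {f : S N} (hf : f ∉ Y.I) :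
    ∃ m, homogeneousComponent m f ∉ Y.I := by
  by_contra h
  push Not at h
  refine hf ?_
  rw [← sum_homogeneousComponent (φ := f)]
  exact Ideal.sum_mem _ fun m _ => h m

/-! The cone over the family. -/

section cone

variable {n : ℕ} (R : Type) [CommRing R] [Algebra ℂ R]

/-- The ring of the family. -/
abbrev BR : Type := Polynomial (LaurentPolynomial R)

theorem dom_BR [IsDomain R] : IsDomain (BR R) := by
  have := dom_laurent R
  infer_instance

theorem ft_BR [Algebra.FiniteType ℂ R] : Algebra.FiniteType ℂ (BR R) := by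
  have h1 : Algebra.FiniteType ℂ R := inferInstance
  have h2 := ft_laurent R
  have h3 : Algebra.FiniteType ℂ (LaurentPolynomial R) := Algebra.FiniteType.trans h1 h2
  have h4 : Algebra.FiniteType (LaurentPolynomial R) (BR R) := inferInstance
  exact Algebra.FiniteType.trans h3 h4

variable {R} (π : MvPolynomial (Fin n) ℂ →ₐ[ℂ] R)
  (F : Fin (N + 1) → LaurentPolynomial (MvPolynomial (Fin n) ℂ))

/-- The coordinates of the family, modulo the ideal. -/
noncomputable def Fb (i : Fin (N + 1)) : LaurentPolynomial R :=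
  LaurentPolynomial.eval₂ ((LaurentPolynomial.C).comp (π : MvPolynomial (Fin n) ℂ →+* R))
    (tU R) (F i)

/-- The map of cones. -/
noncomputable def Phi : S N →ₐ[ℂ] BR R :=
  aeval (fun i => Polynomial.X * Polynomial.C (Fb π F i))

/-- The coordinates of a point of the family. -/
noncomputable def py (ψ : BR R →ₐ[ℂ] ℂ) : Fin n → ℂ :=
  fun j => ψ (Polynomial.C (LaurentPolynomial.C (π (X j))))

/-- The parameter of a point of the family. -/
noncomputable def pt (ψ : BR R →ₐ[ℂ] ℂ) : ℂˣ :=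
  Units.map (((ψ : BR R →+* ℂ).comp Polynomial.C : LaurentPolynomial R →+* ℂ) :
    LaurentPolynomial R →* ℂ) (tU R)

theorem py_eval (ψ : BR R →ₐ[ℂ] ℂ) (a : MvPolynomial (Fin n) ℂ) :
    ψ (Polynomial.C (LaurentPolynomial.C (π a))) = eval (py π ψ) a := by
  have h : (((ψ : BR R →+* ℂ).comp Polynomial.C).comp LaurentPolynomial.C).comp
      (π : MvPolynomial (Fin n) ℂ →+* R) = eval (py π ψ) := by
    refine MvPolynomial.ringHom_ext (fun r => ?_) (fun j => ?_)
    · rw [eval_C]
      have h1 : (π : MvPolynomial (Fin n) ℂ →+* R) (C r) = algebraMap ℂ R r := π.commutes r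
      rw [RingHom.comp_apply, h1]
      exact ψ.commutes r
    · rw [eval_X]
      rfl
  exact congrArg (fun g => g a) h

theorem py_mem (ψ : BR R →ₐ[ℂ] ℂ) : ∀ f, π f = 0 → eval (py π ψ) f = 0 := by
  intro f hf
  rw [← py_eval, hf, map_zero, map_zero, map_zero]

theorem psi_Fb (ψ : BR R →ₐ[ℂ] ℂ) (i : Fin (N + 1)) :
    ψ (Polynomial.C (Fb π F i)) = valT F (py π ψ) (pt ψ) i := by
  have h := eval2_hom ((LaurentPolynomial.C).comp (π : MvPolynomial (Fin n) ℂ →+* R)) (tU R)
    ((ψ : BR R →+* ℂ).comp Polynomial.C) (F i)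
  have h2 : ((ψ : BR R →+* ℂ).comp Polynomial.C).comp
      ((LaurentPolynomial.C).comp (π : MvPolynomial (Fin n) ℂ →+* R)) = eval (py π ψ) :=
    RingHom.ext fun a => py_eval π ψ a
  rw [h2] at h
  exact h

theorem psi_Phi (ψ : BR R →ₐ[ℂ] ℂ) (f : S N) :
    ψ (Phi π F f) = eval (ψ Polynomial.X • valT F (py π ψ) (pt ψ)) f := by
  have h : (ψ.comp (Phi π F)) = aeval (ψ Polynomial.X • valT F (py π ψ) (pt ψ)) := by
    refine MvPolynomial.algHom_ext fun i => ?_
    rw [AlgHom.comp_apply, Phi, aeval_X, aeval_X, map_mul, psi_Fb]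
    rfl
  have h1 := congrArg (fun g => g f) h
  rw [← coe_aeval_eq_eval]
  exact h1

/-- A point of the family. -/
theorem exists_psi (hπ : Function.Surjective π) (s : Fin n → ℂ)
    (hs : ∀ f, π f = 0 → eval s f = 0) (t : ℂˣ) (c : ℂ) (f : S N) :
    ∃ χ : BR R →+* ℂ, χ (Phi π F f) = eval (c • valT F s t) f := by
  let g : R →+* ℂ := (π : MvPolynomial (Fin n) ℂ →+* R).liftOfSurjective hπ
    ⟨eval s, fun a ha => hs a ha⟩
  have hg : ∀ a, g (π a) = eval s a := fun a =>
    (π : MvPolynomial (Fin n) ℂ →+* R).liftOfRightInverse_comp_apply _ _ ⟨eval s, _⟩ a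
  let χ : BR R →+* ℂ := Polynomial.eval₂RingHom (LaurentPolynomial.eval₂ g t) c
  have hC : ∀ a, χ (Polynomial.C a) = LaurentPolynomial.eval₂ g t a := fun a =>
    Polynomial.eval₂_C _ _
  have hX : χ Polynomial.X = c := Polynomial.eval₂_X _ _
  have hF : ∀ i, χ (Polynomial.C (Fb π F i)) = valT F s t i := by
    intro i
    rw [hC, Fb, eval2_hom]
    have h1 : (LaurentPolynomial.eval₂ g t).comp
        ((LaurentPolynomial.C).comp (π : MvPolynomial (Fin n) ℂ →+* R)) = eval s := by
      refine RingHom.ext fun a => ?_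
      rw [RingHom.comp_apply, RingHom.comp_apply, LaurentPolynomial.eval₂_C]
      exact hg a
    have h2 : Units.map ((LaurentPolynomial.eval₂ g t : LaurentPolynomial R →+* ℂ) :
        LaurentPolynomial R →* ℂ) (tU R) = t := by
      ext
      rw [Units.coe_map]
      change LaurentPolynomial.eval₂ g t (tU R).val = t
      rw [tU_val, LaurentPolynomial.eval₂_T, zpow_one]
    rw [h1, h2]
    rfl
  refine ⟨χ, ?_⟩
  have h : χ.comp (Phi π F : S N →+* BR R) = eval (c • valT F s t) := by
    refine MvPolynomial.ringHom_ext (fun r => ?_) (fun i => ?_)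
    · rw [eval_C, RingHom.comp_apply]
      have h1 : (Phi π F : S N →+* BR R) (C r) = algebraMap ℂ (BR R) r := (Phi π F).commutes r
      have h3 : π (C r) = algebraMap ℂ R r := π.commutes r
      have h2 : algebraMap ℂ (BR R) r = Polynomial.C (LaurentPolynomial.C (π (C r))) := by
        rw [h3]; rfl
      rw [h1, h2, hC, LaurentPolynomial.eval₂_C, hg, eval_C]
    · rw [eval_X, RingHom.comp_apply]
      change χ (Phi π F (X i)) = _
      rw [Phi, aeval_X, map_mul, hX, hF]
      rfl
  exact congrArg (fun g => g f) h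

end cone

/-- **FIN2.** -/
theorem dominated_of_dominatedT {Y : Var N} {D : Set (Var N)} (h : DominatedT Y D) :
    Dominated Y D := by
  obtain ⟨n, T, F, hT, hfib, hden⟩ := h
  obtain ⟨R, hR1, hR2, hR3, hR4, π, hπ, hker⟩ : ∃ (R : Type) (_ : CommRing R) (_ : Algebra ℂ R)
      (_ : IsDomain R) (_ : Algebra.FiniteType ℂ R) (π : MvPolynomial (Fin n) ℂ →ₐ[ℂ] R),
      Function.Surjective π ∧ ∀ f, π f = 0 ↔ f ∈ T :=
    ⟨MvPolynomial (Fin n) ℂ ⧸ T, inferInstance, inferInstance, inferInstance, inferInstance,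
      Ideal.Quotient.mkₐ ℂ T, Ideal.Quotient.mkₐ_surjective ℂ T,
      fun f => Ideal.Quotient.eq_zero_iff_mem⟩
  have hdB : IsDomain (BR R) := dom_BR R
  have hfB : Algebra.FiniteType ℂ (BR R) := ft_BR R
  have hmem : ∀ ψ : BR R →ₐ[ℂ] ℂ, ∀ f ∈ T, eval (py π ψ) f = 0 := fun ψ f hf =>
    py_mem π ψ f ((hker f).2 hf)
  have ha : ∀ f ∈ Y.I, Phi π F f = 0 := by
    intro f hf
    by_contra hne
    obtain ⟨ψ, hψ⟩ := exists_pt_ne (k := ℂ) hne
    refine hψ ?_
    rw [psi_Phi]
    exact eval_smul_zero hf ((hfib _ (hmem ψ)).1 (pt ψ)).1 _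
  have hb : ∀ f, Phi π F f = 0 → f ∈ Y.I := by
    intro f h0
    by_contra hf
    obtain ⟨m, hm⟩ := exists_comp hf
    obtain ⟨s, hs, t, ht⟩ := hden _ m (homogeneousComponent_isHomogeneous m f) hm
    obtain ⟨c, -, hc⟩ := exists_smul_ne ht
    obtain ⟨χ, hχ⟩ := exists_psi π F hπ s (fun g hg => hs g ((hker g).1 hg)) t c f
    rw [h0, map_zero] at hχ
    exact hc hχ.symm
  let Φ : S N ⧸ Y.I →ₐ[ℂ] BR R := Ideal.Quotient.liftₐ Y.I (Phi π F) ha
  have hΦ : ∀ f, Φ (Ideal.Quotient.mk Y.I f) = Phi π F f := fun f => rfl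
  have hinj : Function.Injective Φ := by
    rw [injective_iff_map_eq_zero]
    intro a h0
    obtain ⟨f, rfl⟩ := Ideal.Quotient.mk_surjective a
    rw [hΦ] at h0
    exact Ideal.Quotient.eq_zero_iff_mem.2 (hb f h0)
  obtain ⟨h, hh, hl⟩ := exists_lift Φ hinj
  obtain ⟨f, rfl⟩ := Ideal.Quotient.mk_surjective h
  have hf : f ∉ Y.I := fun hf => hh (Ideal.Quotient.eq_zero_iff_mem.2 hf)
  obtain ⟨m, hm⟩ := exists_comp hf
  refine ⟨homogeneousComponent m f, hm, ⟨m, homogeneousComponent_isHomogeneous m f⟩, ?_⟩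
  intro p hp hpm
  obtain ⟨c, hc0, hc⟩ := exists_smul_ne hpm
  let x : S N ⧸ Y.I →ₐ[ℂ] ℂ := Ideal.Quotient.liftₐ Y.I (aeval (c • p))
    (fun g hg => by
      have := eval_smul_zero hg hp.1 c
      rwa [← coe_aeval_eq_eval] at this)
  have hx : ∀ g, x (Ideal.Quotient.mk Y.I g) = eval (c • p) g := by
    intro g
    rw [← coe_aeval_eq_eval]
    rfl
  obtain ⟨ψ, hψ⟩ := hl x (by rw [hx]; exact hc)
  have hcoord : ∀ i, ψ Polynomial.X * valT F (py π ψ) (pt ψ) i = c * p i := by
    intro i
    have h1 : ψ (Φ (Ideal.Quotient.mk Y.I (X i))) = x (Ideal.Quotient.mk Y.I (X i)) :=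
      congrArg (fun g => g (Ideal.Quotient.mk Y.I (X i))) hψ
    rw [hΦ, hx, psi_Phi, eval_X, eval_X] at h1
    exact h1
  have hψ0 : ψ Polynomial.X ≠ 0 := by
    intro h0
    refine hp.1.1 (funext fun i => ?_)
    have h1 := hcoord i
    rw [h0, zero_mul] at h1
    rcases mul_eq_zero.1 h1.symm with h2 | h2
    · exact absurd h2 hc0
    · exact h2
  obtain ⟨hU, hnc⟩ := hfib _ (hmem ψ)
  let φ : Fin (N + 1) → LaurentPolynomial ℂ := fun i =>
    LaurentPolynomial.eval₂ ((LaurentPolynomial.C).comp (eval (py π ψ))) (tU ℂ) (F i)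
  have hφ : ∀ t, val φ t = valT F (py π ψ) t := by
    intro t
    funext i
    change LaurentPolynomial.eval₂ (RingHom.id ℂ) t (LaurentPolynomial.eval₂
      ((LaurentPolynomial.C).comp (eval (py π ψ))) (tU ℂ) (F i)) = _
    rw [eval2_hom]
    have h1 : (LaurentPolynomial.eval₂ (RingHom.id ℂ) t).comp
        ((LaurentPolynomial.C).comp (eval (py π ψ))) = eval (py π ψ) := by
      refine RingHom.ext fun a => ?_
      rw [RingHom.comp_apply, RingHom.comp_apply, LaurentPolynomial.eval₂_C]
      rfl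
    have h2 : Units.map ((LaurentPolynomial.eval₂ (RingHom.id ℂ) t : LaurentPolynomial ℂ →+* ℂ) :
        LaurentPolynomial ℂ →* ℂ) (tU ℂ) = t := by
      ext
      rw [Units.coe_map]
      change LaurentPolynomial.eval₂ (RingHom.id ℂ) t (tU ℂ).val = t
      rw [tU_val, LaurentPolynomial.eval₂_T, zpow_one]
    rw [h1, h2]
    rfl
  refine ⟨φ, ⟨fun t => ?_, ?_⟩, pt ψ, (ψ Polynomial.X)⁻¹ * c, ?_, ?_⟩
  · rw [hφ]
    exact hU t
  · obtain ⟨t, t', htt⟩ := hnc
    refine ⟨t, t', fun c' => ?_⟩
    rw [hφ, hφ]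
    exact htt c'
  · exact mul_ne_zero (inv_ne_zero hψ0) hc0
  · rw [hφ]
    funext i
    rw [Pi.smul_apply, smul_eq_mul, mul_assoc, ← hcoord i, ← mul_assoc, inv_mul_cancel₀ hψ0,
      one_mul]

end H96
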