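import Pool.Agent.Helper96.LCY.Ade2
import Pool.Agent.Helper84.LCY.AdeVal

set_option autoImplicit false

/-!
The ring theory of the five Du Val equations (row ADE of MP_f7e214_ag).
-/

open MvPowerSeries LCY IsLocalRing

namespace H96

variable {f G Gy Gz : PS}

theorem red2_X1 : red 2 (X 1) = X 0 := red_Xs (n := 2) 0
theorem red2_X2 : red 2 (X 2) = X 1 := red_Xs (n := 2) 1

/-- The common part of the five cases. -/
theorem ade_core (hf : f = X 0 ^ 2 + G) (h0 : red 2 G ≠ 0) (h2 : G ∈ maximalIdeal PS ^ 2)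
    (hy : ∃ N : ℕ, (X 0 : PSn 2) ^ N ∈ Ideal.span {red 2 G, red 2 Gy, red 2 Gz})
    (hz : ∃ N : ℕ, (X 1 : PSn 2) ^ N ∈ Ideal.span {red 2 G, red 2 Gy, red 2 Gz})
    (hder : ∀ δ : PS ⧸ Ideal.span {f} → PS ⧸ Ideal.span {f}, (∀ a b, δ (a + b) = δ a + δ b) →
      (∀ a b, δ (a * b) = a * δ b + b * δ a) →
      δ (Ideal.Quotient.mk _ G) = Ideal.Quotient.mk _ Gy * δ (Ideal.Quotient.mk _ (X 1)) +
        Ideal.Quotient.mk _ Gz * δ (Ideal.Quotient.mk _ (X 2)))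
    (hval : ∀ vh : PS ⧸ Ideal.span {f} → ℕ∞, H84.VH (Ideal.Quotient.mk _ (X 0))
      (Ideal.Quotient.mk _ (X 1)) (Ideal.Quotient.mk _ (X 2)) (Ideal.Quotient.mk _ Gy)
      (Ideal.Quotient.mk _ Gz) vh → vh (Ideal.Quotient.mk _ (X 0)) = ⊤ ∧
        vh (Ideal.Quotient.mk _ (X 1)) = ⊤ ∧ vh (Ideal.Quotient.mk _ (X 2)) = ⊤) :
    ∃ (_ : IsLocalRing (PS ⧸ Ideal.span {f})) (gy gz : PS ⧸ Ideal.span {f}),
      ADEOut (PS ⧸ Ideal.span {f}) (Ideal.Quotient.mk _ (X 0)) (Ideal.Quotient.mk _ (X 1))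
        (Ideal.Quotient.mk _ (X 2)) gy gz := by
  have hf2 : f ∈ maximalIdeal PS ^ 2 := by
    rw [hf]
    exact Ideal.add_mem _ (Ideal.pow_mem_pow (X_mem_max 0) 2) h2
  have hfm : f ∈ maximalIdeal PS := Ideal.pow_le_self (by norm_num) hf2
  have hloc := local_core hfm
  refine ⟨hloc, Ideal.Quotient.mk _ Gy, Ideal.Quotient.mk _ Gz, ?_⟩
  refine ⟨inferInstance, gen_core hfm, emb_core hf2, ?_, syz_core hf h0 hy hz,
    prim_core hf hfm hy hz, ?_⟩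
  · intro δ ha hm
    have h1 : Ideal.Quotient.mk (Ideal.span {f}) (X 0) ^ 2 +
        Ideal.Quotient.mk (Ideal.span {f}) G = 0 := by
      rw [← map_pow, ← map_add, ← hf, Ideal.Quotient.eq_zero_iff_mem]
      exact Ideal.mem_span_singleton_self f
    have h3 := congrArg δ h1
    rw [ha, der_zero ha, hder δ ha hm, der_pow hm] at h3
    rw [← h3]
    push_cast
    ring
  · intro vh hm ha hN hx hy' hz' h1 h2' h3
    exact hval vh ⟨hm, ha, hN, hx, hy', hz', h1, h2', h3⟩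

theorem q_rel (hf : f = X 0 ^ 2 + G) : Ideal.Quotient.mk (Ideal.span {f}) (X 0) ^ 2 +
    Ideal.Quotient.mk (Ideal.span {f}) G = 0 := by
  rw [← map_pow, ← map_add, ← hf, Ideal.Quotient.eq_zero_iff_mem]
  exact Ideal.mem_span_singleton_self f

theorem span3 {R : Type*} [CommRing R] (g gy gz α β γ : R) :
    α * g + β * gy + γ * gz ∈ Ideal.span ({g, gy, gz} : Set R) :=
  Ideal.add_mem _ (Ideal.add_mem _ (Ideal.mul_mem_left _ _ (Ideal.subset_span (Or.inl rfl)))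
    (Ideal.mul_mem_left _ _ (Ideal.subset_span (Or.inr (Or.inl rfl)))))
    (Ideal.mul_mem_left _ _ (Ideal.subset_span (Or.inr (Or.inr rfl))))

theorem mem_eq {R : Type*} [CommRing R] {I : Ideal R} {a b : R} (h : a ∈ I) (e : b = a) :
    b ∈ I := e ▸ h

theorem mem_of_nat {I : Ideal (PSn 2)} {k : ℕ} (hk : k ≠ 0) {t : PSn 2}
    (h : (k : PSn 2) * t ∈ I) : t ∈ I := by
  have h1 : (C ((k : ℂ)⁻¹) : PSn 2) * (k : PSn 2) = 1 := by
    have h2 : (k : PSn 2) = C (k : ℂ) := (map_natCast C k).symm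
    rw [h2, ← map_mul, inv_mul_cancel₀ (Nat.cast_ne_zero.2 hk), map_one]
  have h2 := Ideal.mul_mem_left I (C ((k : ℂ)⁻¹)) h
  rwa [← mul_assoc, h1, one_mul] at h2

theorem Xpow_mem (i : Fin 3) {k : ℕ} (hk : 2 ≤ k) : (X i : PS) ^ k ∈ maximalIdeal PS ^ 2 :=
  Ideal.pow_le_pow_right hk (Ideal.pow_mem_pow (X_mem_max i) k)

theorem X1_ne {k : ℕ} : (X 1 : PSn 2) ^ k ≠ 0 := by
  intro h
  have hd := dom_PSn 1
  have h1 := congrArg (red 1) h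
  have h2 : red 1 (X 1) = X 0 := red_Xs (n := 1) 0
  rw [map_pow, h2, map_zero] at h1
  exact pow_ne_zero k (prime_X0 (n := 0)).ne_zero h1

theorem ne_of_red {A B : PSn 2} {k : ℕ} (h : A = X 0 * B + (X 1) ^ k) : A ≠ 0 := by
  intro h0
  have h1 := congrArg (red 1) (h.symm.trans h0)
  have h2 : red 1 (X 1) = X 0 := red_Xs (n := 1) 0
  have hd := dom_PSn 1
  rw [map_add, map_mul, red_X0, zero_mul, zero_add, map_pow, h2, map_zero] at h1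
  exact pow_ne_zero k (prime_X0 (n := 0)).ne_zero h1

theorem ade_A (n : ℕ) (hn : 1 ≤ n) : ∃ (_ : IsLocalRing (PS ⧸ Ideal.span
      {((X 0 : PS) ^ 2 + X 1 ^ 2 + X 2 ^ (n + 1))}))
    (gy gz : PS ⧸ Ideal.span {((X 0 : PS) ^ 2 + X 1 ^ 2 + X 2 ^ (n + 1))}),
      ADEOut (PS ⧸ Ideal.span {((X 0 : PS) ^ 2 + X 1 ^ 2 + X 2 ^ (n + 1))})
        (Ideal.Quotient.mk _ (X 0)) (Ideal.Quotient.mk _ (X 1))
        (Ideal.Quotient.mk _ (X 2)) gy gz := by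
  have hf : (X 0 : PS) ^ 2 + X 1 ^ 2 + X 2 ^ (n + 1) = X 0 ^ 2 + (X 1 ^ 2 + X 2 ^ (n + 1)) := by
    ring
  have hg : red 2 (X 1 ^ 2 + X 2 ^ (n + 1)) = X 0 ^ 2 + X 1 ^ (n + 1) := by
    rw [map_add, map_pow, map_pow, red2_X1, red2_X2]
  have hgy : red 2 (2 * X 1) = 2 * X 0 := by rw [map_mul, map_ofNat, red2_X1]
  have hgz : red 2 (((n + 1 : ℕ) : PS) * X 2 ^ n) = ((n + 1 : ℕ) : PSn 2) * X 1 ^ n := by
    rw [map_mul, map_natCast, map_pow, red2_X2]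
  refine ade_core (Gy := 2 * X 1) (Gz := ((n + 1 : ℕ) : PS) * X 2 ^ n) hf ?_ ?_ ?_ ?_ ?_ ?_
  · rw [hg]
    exact ne_of_red (B := X 0) (k := n + 1) (by ring)
  · exact Ideal.add_mem _ (Xpow_mem 1 le_rfl) (Xpow_mem 2 (by omega))
  · rw [hg, hgy, hgz]
    refine ⟨1, mem_of_nat (k := 2) (by norm_num) ?_⟩
    exact mem_eq (span3 _ _ _ 0 1 0) (by push_cast; ring)
  · rw [hg, hgy, hgz]
    refine ⟨n, mem_of_nat (k := n + 1) (by omega) ?_⟩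
    exact mem_eq (span3 _ _ _ 0 0 1) (by push_cast; ring)
  · intro δ ha hm
    rw [map_add, map_pow, map_pow, map_mul, map_mul, map_ofNat, map_natCast, map_pow, ha,
      der_pow hm _ 1, der_pow hm _ n]
    push_cast
    ring
  · intro vh h
    have h1 := q_rel hf
    rw [map_add, map_pow, map_pow] at h1
    rw [map_mul, map_ofNat, map_mul, map_natCast, map_pow] at h
    exact H84.valA h h1

theorem der_pow' {Q : Type*} [CommRing Q] {δ : Q → Q}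
    (hm : ∀ a b, δ (a * b) = a * δ b + b * δ a) (a : Q) {n : ℕ} (hn : 4 ≤ n) :
    δ (a ^ (n - 1)) = ((n - 1 : ℕ) : Q) * a ^ (n - 2) * δ a := by
  obtain ⟨k, rfl⟩ : ∃ k, n = k + 4 := ⟨n - 4, by omega⟩
  have e1 : k + 4 - 1 = k + 2 + 1 := by omega
  have e2 : k + 4 - 2 = k + 2 := by omega
  rw [e1, e2, der_pow hm]

theorem ade_D (n : ℕ) (hn : 4 ≤ n) : ∃ (_ : IsLocalRing (PS ⧸ Ideal.span
      {((X 0 : PS) ^ 2 + X 1 ^ 2 * X 2 + X 2 ^ (n - 1))}))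
    (gy gz : PS ⧸ Ideal.span {((X 0 : PS) ^ 2 + X 1 ^ 2 * X 2 + X 2 ^ (n - 1))}),
      ADEOut (PS ⧸ Ideal.span {((X 0 : PS) ^ 2 + X 1 ^ 2 * X 2 + X 2 ^ (n - 1))})
        (Ideal.Quotient.mk _ (X 0)) (Ideal.Quotient.mk _ (X 1))
        (Ideal.Quotient.mk _ (X 2)) gy gz := by
  have hf : (X 0 : PS) ^ 2 + X 1 ^ 2 * X 2 + X 2 ^ (n - 1) =
      X 0 ^ 2 + (X 1 ^ 2 * X 2 + X 2 ^ (n - 1)) := by ring
  have hg : red 2 (X 1 ^ 2 * X 2 + X 2 ^ (n - 1)) = X 0 ^ 2 * X 1 + X 1 ^ (n - 1) := by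
    rw [map_add, map_mul, map_pow, map_pow, red2_X1, red2_X2]
  have hgy : red 2 (2 * X 1 * X 2) = 2 * X 0 * X 1 := by
    rw [map_mul, map_mul, map_ofNat, red2_X1, red2_X2]
  have hgz : red 2 (X 1 ^ 2 + ((n - 1 : ℕ) : PS) * X 2 ^ (n - 2)) =
      X 0 ^ 2 + ((n - 1 : ℕ) : PSn 2) * X 1 ^ (n - 2) := by
    rw [map_add, map_mul, map_natCast, map_pow, map_pow, red2_X1, red2_X2]
  refine ade_core (Gy := 2 * X 1 * X 2) (Gz := X 1 ^ 2 + ((n - 1 : ℕ) : PS) * X 2 ^ (n - 2))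
    hf ?_ ?_ ?_ ?_ ?_ ?_
  · rw [hg]
    exact ne_of_red (B := X 0 * X 1) (k := n - 1) (by ring)
  · exact Ideal.add_mem _ (Ideal.mul_mem_right _ _ (Xpow_mem 1 le_rfl)) (Xpow_mem 2 (by omega))
  · rw [hg, hgy, hgz]
    refine ⟨3, mem_of_nat (k := 2) (by norm_num) ?_⟩
    obtain ⟨k, rfl⟩ : ∃ k, n = k + 4 := ⟨n - 4, by omega⟩
    have e1 : k + 4 - 1 = k + 3 := by omega
    have e2 : k + 4 - 2 = k + 2 := by omega
    rw [e1, e2]
    exact mem_eq (span3 _ _ _ 0 (-(((k + 3 : ℕ) : PSn 2) * X 1 ^ (k + 1))) (2 * X 0))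
      (by push_cast; ring)
  · rw [hg, hgy, hgz]
    obtain ⟨k, rfl⟩ : ∃ k, n = k + 4 := ⟨n - 4, by omega⟩
    have e1 : k + 4 - 1 = k + 3 := by omega
    have e2 : k + 4 - 2 = k + 2 := by omega
    rw [e1, e2]
    refine ⟨k + 3, mem_of_nat (k := 2) (by norm_num) ?_⟩
    exact mem_eq (span3 _ _ _ 2 (-X 0) 0) (by push_cast; ring)
  · intro δ ha hm
    simp only [map_add, map_mul, map_pow, map_ofNat, map_natCast]
    rw [ha, hm, der_pow hm _ 1, der_pow' hm _ hn]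
    simp only [Nat.reduceAdd, Nat.cast_ofNat]
    ring
  · intro vh h
    have h1 := q_rel hf
    rw [map_add, map_mul, map_pow, map_pow] at h1
    rw [map_mul, map_mul, map_ofNat, map_add, map_mul, map_natCast, map_pow, map_pow] at h
    exact H84.valD hn h h1

theorem ade_E6 : ∃ (_ : IsLocalRing (PS ⧸ Ideal.span
      {((X 0 : PS) ^ 2 + X 1 ^ 3 + X 2 ^ 4)}))
    (gy gz : PS ⧸ Ideal.span {((X 0 : PS) ^ 2 + X 1 ^ 3 + X 2 ^ 4)}),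
      ADEOut (PS ⧸ Ideal.span {((X 0 : PS) ^ 2 + X 1 ^ 3 + X 2 ^ 4)})
        (Ideal.Quotient.mk _ (X 0)) (Ideal.Quotient.mk _ (X 1))
        (Ideal.Quotient.mk _ (X 2)) gy gz := by
  have hf : (X 0 : PS) ^ 2 + X 1 ^ 3 + X 2 ^ 4 = X 0 ^ 2 + (X 1 ^ 3 + X 2 ^ 4) := by ring
  have hg : red 2 (X 1 ^ 3 + X 2 ^ 4) = X 0 ^ 3 + X 1 ^ 4 := by
    rw [map_add, map_pow, map_pow, red2_X1, red2_X2]
  have hgy : red 2 (3 * X 1 ^ 2) = 3 * X 0 ^ 2 := by rw [map_mul, map_ofNat, map_pow, red2_X1]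
  have hgz : red 2 (4 * X 2 ^ 3) = 4 * X 1 ^ 3 := by rw [map_mul, map_ofNat, map_pow, red2_X2]
  refine ade_core (Gy := 3 * X 1 ^ 2) (Gz := 4 * X 2 ^ 3) hf ?_ ?_ ?_ ?_ ?_ ?_
  · rw [hg]
    exact ne_of_red (B := X 0 ^ 2) (k := 4) (by ring)
  · exact Ideal.add_mem _ (Xpow_mem 1 (by norm_num)) (Xpow_mem 2 (by norm_num))
  · rw [hg, hgy, hgz]
    refine ⟨2, mem_of_nat (k := 3) (by norm_num) ?_⟩
    exact mem_eq (span3 _ _ _ 0 1 0) (by push_cast; ring)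
  · rw [hg, hgy, hgz]
    refine ⟨3, mem_of_nat (k := 4) (by norm_num) ?_⟩
    exact mem_eq (span3 _ _ _ 0 0 1) (by push_cast; ring)
  · intro δ ha hm
    simp only [map_add, map_mul, map_pow, map_ofNat]
    rw [ha, der_pow hm _ 2, der_pow hm _ 3]
    push_cast
    ring
  · intro vh h
    rw [map_mul, map_ofNat, map_pow, map_mul, map_ofNat, map_pow] at h
    exact H84.valE6 h

theorem ade_E7 : ∃ (_ : IsLocalRing (PS ⧸ Ideal.span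
      {((X 0 : PS) ^ 2 + X 1 ^ 3 + X 1 * X 2 ^ 3)}))
    (gy gz : PS ⧸ Ideal.span {((X 0 : PS) ^ 2 + X 1 ^ 3 + X 1 * X 2 ^ 3)}),
      ADEOut (PS ⧸ Ideal.span {((X 0 : PS) ^ 2 + X 1 ^ 3 + X 1 * X 2 ^ 3)})
        (Ideal.Quotient.mk _ (X 0)) (Ideal.Quotient.mk _ (X 1))
        (Ideal.Quotient.mk _ (X 2)) gy gz := by
  have hf : (X 0 : PS) ^ 2 + X 1 ^ 3 + X 1 * X 2 ^ 3 =
      X 0 ^ 2 + (X 1 ^ 3 + X 1 * X 2 ^ 3) := by ring
  have hg : red 2 (X 1 ^ 3 + X 1 * X 2 ^ 3) = X 0 ^ 3 + X 0 * X 1 ^ 3 := by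
    rw [map_add, map_mul, map_pow, map_pow, red2_X1, red2_X2]
  have hgy : red 2 (3 * X 1 ^ 2 + X 2 ^ 3) = 3 * X 0 ^ 2 + X 1 ^ 3 := by
    rw [map_add, map_mul, map_ofNat, map_pow, map_pow, red2_X1, red2_X2]
  have hgz : red 2 (3 * X 1 * X 2 ^ 2) = 3 * X 0 * X 1 ^ 2 := by
    rw [map_mul, map_mul, map_ofNat, map_pow, red2_X1, red2_X2]
  refine ade_core (Gy := 3 * X 1 ^ 2 + X 2 ^ 3) (Gz := 3 * X 1 * X 2 ^ 2) hf ?_ ?_ ?_ ?_ ?_ ?_
  · rw [hg]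
    have hd := dom_PSn 2
    have h1 : (X 0 ^ 3 + X 0 * X 1 ^ 3 : PSn 2) = X 0 * (X 0 * X 0 + X 1 ^ 3) := by ring
    rw [h1]
    exact mul_ne_zero (prime_X0 (n := 1)).ne_zero (ne_of_red (B := X 0) (k := 3) rfl)
  · exact Ideal.add_mem _ (Xpow_mem 1 (by norm_num))
      (Ideal.mul_mem_left _ _ (Xpow_mem 2 (by norm_num)))
  · rw [hg, hgy, hgz]
    refine ⟨3, mem_of_nat (k := 9) (by norm_num) ?_⟩
    exact mem_eq (span3 _ _ _ 0 (3 * X 0) (-X 1)) (by push_cast; ring)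
  · rw [hg, hgy, hgz]
    refine ⟨5, ?_⟩
    exact mem_eq (span3 _ _ _ 0 (X 1 ^ 2) (-X 0)) (by ring)
  · intro δ ha hm
    simp only [map_add, map_mul, map_pow, map_ofNat]
    rw [ha, hm, der_pow hm _ 2, der_pow hm _ 2]
    push_cast
    ring
  · intro vh h
    rw [map_add, map_mul, map_ofNat, map_pow, map_pow, map_mul, map_mul, map_ofNat,
      map_pow] at h
    exact H84.valE7 h

theorem ade_E8 : ∃ (_ : IsLocalRing (PS ⧸ Ideal.span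
      {((X 0 : PS) ^ 2 + X 1 ^ 3 + X 2 ^ 5)}))
    (gy gz : PS ⧸ Ideal.span {((X 0 : PS) ^ 2 + X 1 ^ 3 + X 2 ^ 5)}),
      ADEOut (PS ⧸ Ideal.span {((X 0 : PS) ^ 2 + X 1 ^ 3 + X 2 ^ 5)})
        (Ideal.Quotient.mk _ (X 0)) (Ideal.Quotient.mk _ (X 1))
        (Ideal.Quotient.mk _ (X 2)) gy gz := by
  have hf : (X 0 : PS) ^ 2 + X 1 ^ 3 + X 2 ^ 5 = X 0 ^ 2 + (X 1 ^ 3 + X 2 ^ 5) := by ring
  have hg : red 2 (X 1 ^ 3 + X 2 ^ 5) = X 0 ^ 3 + X 1 ^ 5 := by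
    rw [map_add, map_pow, map_pow, red2_X1, red2_X2]
  have hgy : red 2 (3 * X 1 ^ 2) = 3 * X 0 ^ 2 := by rw [map_mul, map_ofNat, map_pow, red2_X1]
  have hgz : red 2 (5 * X 2 ^ 4) = 5 * X 1 ^ 4 := by rw [map_mul, map_ofNat, map_pow, red2_X2]
  refine ade_core (Gy := 3 * X 1 ^ 2) (Gz := 5 * X 2 ^ 4) hf ?_ ?_ ?_ ?_ ?_ ?_
  · rw [hg]
    exact ne_of_red (B := X 0 ^ 2) (k := 5) (by ring)
  · exact Ideal.add_mem _ (Xpow_mem 1 (by norm_num)) (Xpow_mem 2 (by norm_num))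
  · rw [hg, hgy, hgz]
    refine ⟨2, mem_of_nat (k := 3) (by norm_num) ?_⟩
    exact mem_eq (span3 _ _ _ 0 1 0) (by push_cast; ring)
  · rw [hg, hgy, hgz]
    refine ⟨4, mem_of_nat (k := 5) (by norm_num) ?_⟩
    exact mem_eq (span3 _ _ _ 0 0 1) (by push_cast; ring)
  · intro δ ha hm
    simp only [map_add, map_mul, map_pow, map_ofNat]
    rw [ha, der_pow hm _ 2, der_pow hm _ 4]
    push_cast
    ring
  · intro vh h
    rw [map_mul, map_ofNat, map_pow, map_mul, map_ofNat, map_pow] at h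
    exact H84.valE8 h

/-- **Row ADE.** -/
theorem st_ADE : ST_ADE := by
  intro f hf
  cases hf with
  | A n hn => exact ade_A n hn
  | D n hn => exact ade_D n hn
  | E6 => exact ade_E6
  | E7 => exact ade_E7
  | E8 => exact ade_E8

end H96
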