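import Mathlib

set_option autoImplicit false

/-!
Power series in several variables over the complex numbers: setting a variable to zero, the
maximal ideal, the linear part (for the Du Val points of MP_f7e214_ag).
-/

open MvPowerSeries

namespace H96

/-- Power series in `n` variables. -/
abbrev PSn (n : ℕ) : Type := MvPowerSeries (Fin n) ℂ

theorem dom_PSn (n : ℕ) : IsDomain (PSn n) := NoZeroDivisors.to_isDomain _

/-- Setting the first variable to zero. -/
noncomputable def red (n : ℕ) : PSn (n + 1) →+* PSn n :=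
  (PowerSeries.constantCoeff (R := PSn n)).comp
    (finSuccEquiv ℂ n : PSn (n + 1) →+* PowerSeries (PSn n))

variable {n : ℕ}

theorem red_apply (F : PSn (n + 1)) :
    red n F = PowerSeries.constantCoeff (finSuccEquiv ℂ n F) := rfl

theorem red_X0 : red n (X 0) = 0 := by
  rw [red_apply, finSuccEquiv_X_zero, PowerSeries.constantCoeff_X]

theorem red_Xs (j : Fin n) : red n (X j.succ) = X j := by
  rw [red_apply, finSuccEquiv_X_succ, PowerSeries.constantCoeff_C]

theorem red_C (c : ℂ) : red n (C c) = C c := by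
  rw [red_apply, finSuccEquiv_C, PowerSeries.constantCoeff_C]

theorem red_surj : Function.Surjective (red n) := by
  intro G
  refine ⟨(finSuccEquiv ℂ n).symm (PowerSeries.C G), ?_⟩
  rw [red_apply, AlgEquiv.apply_symm_apply, PowerSeries.constantCoeff_C]

theorem dvd_of_red {F : PSn (n + 1)} (h : red n F = 0) : X 0 ∣ F := by
  rw [red_apply, ← PowerSeries.X_dvd_iff] at h
  obtain ⟨G, hG⟩ := h
  refine ⟨(finSuccEquiv ℂ n).symm G, ?_⟩
  apply (finSuccEquiv ℂ n).injective
  rw [map_mul, AlgEquiv.apply_symm_apply, finSuccEquiv_X_zero, hG]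

theorem red_eq_zero {F : PSn (n + 1)} : red n F = 0 ↔ X 0 ∣ F := by
  refine ⟨dvd_of_red, ?_⟩
  rintro ⟨G, rfl⟩
  rw [map_mul, red_X0, zero_mul]

theorem cc_red (F : PSn (n + 1)) : constantCoeff (red n F) = constantCoeff F := by
  have h := coeff_coeff_finSuccEquiv (R := ℂ) (n := n) F (k := 0) (x := 0)
  rw [red_apply, ← coeff_zero_eq_constantCoeff_apply,
    ← PowerSeries.coeff_zero_eq_constantCoeff_apply, h, Finsupp.cons_zero_zero,
    coeff_zero_eq_constantCoeff_apply]

theorem prime_X0 : Prime (X 0 : PSn (n + 1)) := by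
  have hd := dom_PSn n
  have h : Prime ((finSuccEquiv ℂ n) (X 0 : PSn (n + 1))) := by
    rw [finSuccEquiv_X_zero]
    exact PowerSeries.X_prime
  exact (MulEquiv.prime_iff (finSuccEquiv ℂ n).toMulEquiv).1 h

/-- The maximal ideal is generated by the variables. -/
theorem exists_sum : ∀ {n : ℕ} (F : PSn n), constantCoeff F = 0 →
    ∃ G : Fin n → PSn n, F = ∑ i, G i * X i
  | 0, F, hF => by
    refine ⟨fun i => i.elim0, ?_⟩
    rw [Finset.univ_eq_empty, Finset.sum_empty]
    ext d
    have hd : d = 0 := Subsingleton.elim _ _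
    rw [hd, coeff_zero_eq_constantCoeff_apply, hF, map_zero]
  | n + 1, F, hF => by
    obtain ⟨G, hG⟩ := exists_sum (red n F) (by rw [cc_red]; exact hF)
    choose H hH using fun i => red_surj (n := n) (G i)
    have h0 : red n (F - ∑ i : Fin n, H i * X i.succ) = 0 := by
      rw [map_sub, map_sum, sub_eq_zero, hG]
      refine Finset.sum_congr rfl fun i _ => ?_
      rw [map_mul, hH, red_Xs]
    obtain ⟨K, hK⟩ := dvd_of_red h0
    refine ⟨Fin.cons K H, ?_⟩
    rw [Fin.sum_univ_succ]
    simp only [Fin.cons_zero, Fin.cons_succ]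
    rw [mul_comm K, ← hK]
    ring

/-- The coefficient of `X i`. -/
noncomputable def lin (i : Fin n) (F : PSn n) : ℂ := constantCoeff (pderiv ℂ i F)

theorem lin_add (i : Fin n) (F G : PSn n) : lin i (F + G) = lin i F + lin i G := by
  rw [lin, map_add, map_add]; rfl

theorem lin_mul (i : Fin n) (F G : PSn n) :
    lin i (F * G) = constantCoeff F * lin i G + constantCoeff G * lin i F := by
  rw [lin, Derivation.leibniz, map_add, smul_eq_mul, smul_eq_mul, map_mul, map_mul]; rfl

theorem lin_X_self (i : Fin n) : lin i (X i) = 1 := by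
  rw [lin, pderiv_X_self, map_one]

theorem lin_X_ne {i j : Fin n} (h : j ≠ i) : lin i (X j) = 0 := by
  rw [lin, pderiv_X_of_ne h, map_zero]

theorem lin_zero (i : Fin n) : lin i (0 : PSn n) = 0 := by
  rw [lin, map_zero, map_zero]

theorem mem_max {F : PSn n} : F ∈ IsLocalRing.maximalIdeal (PSn n) ↔ constantCoeff F = 0 := by
  rw [IsLocalRing.mem_maximalIdeal, mem_nonunits_iff, isUnit_iff_constantCoeff, isUnit_iff_ne_zero,
    not_not]

theorem lin_sq (i : Fin n) {F : PSn n} (h : F ∈ IsLocalRing.maximalIdeal (PSn n) ^ 2) :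
    lin i F = 0 := by
  rw [pow_two] at h
  refine Submodule.mul_induction_on h (fun a ha b hb => ?_) (fun a b ha hb => ?_)
  · rw [lin_mul, mem_max.1 ha, mem_max.1 hb, zero_mul, zero_mul, add_zero]
  · rw [lin_add, ha, hb, add_zero]

end H96
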