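import Pool.Agent.Helper93.LCY.DVStmts
import Pool.Agent.Helper96.LCY.PSer

set_option autoImplicit false

/-!
Ring theory of `x ^ 2 + g(y, z) = 0` in three-variable power series.
-/

open MvPowerSeries LCY IsLocalRing

namespace H96

/-- divisibility by `g` can be tested after multiplication with a primary ideal -/
theorem dvd_core {g gy gz a : PSn 2} (h0 : g ≠ 0)
    (hy : ∃ N : ℕ, (X 0 : PSn 2) ^ N ∈ Ideal.span {g, gy, gz})
    (hz : ∃ N : ℕ, (X 1 : PSn 2) ^ N ∈ Ideal.span {g, gy, gz})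
    (h1 : g ∣ gy * a) (h2 : g ∣ gz * a) : g ∣ a := by
  have hd := dom_PSn 2
  have key : ∀ t ∈ Ideal.span ({g, gy, gz} : Set (PSn 2)), g ∣ t * a := by
    intro t ht
    refine Submodule.span_induction (p := fun t _ => g ∣ t * a) ?_ ?_ ?_ ?_ ht
    · intro s hs
      rcases hs with rfl | rfl | rfl
      · exact Dvd.intro _ rfl
      · exact h1
      · exact h2
    · rw [zero_mul]; exact dvd_zero _
    · intro s t _ _ hs ht
      rw [add_mul]; exact dvd_add hs ht
    · intro c s _ hs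
      rw [smul_eq_mul, mul_assoc]
      exact Dvd.dvd.mul_left hs c
  obtain ⟨N, hN⟩ := hy
  obtain ⟨M, hM⟩ := hz
  obtain ⟨p, hp⟩ := key _ hN
  obtain ⟨q, hq⟩ := key _ hM
  have hpr : Prime (X 0 : PSn 2) := prime_X0
  have hnd : ¬ (X 0 : PSn 2) ∣ (X 1) ^ M := by
    intro h
    have h3 := hpr.dvd_of_dvd_pow h
    rw [← red_eq_zero] at h3
    have h4 : red 1 (X 1) = X 0 := red_Xs (n := 1) 0
    rw [h4] at h3
    have h5 := lin_X_self (0 : Fin 1)
    rw [h3, lin_zero] at h5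
    exact zero_ne_one h5
  have h3 : (X 0 : PSn 2) ^ N ∣ (X 1) ^ M * p := by
    refine ⟨q, ?_⟩
    apply mul_left_cancel₀ h0
    calc g * ((X 1) ^ M * p) = (X 1) ^ M * (g * p) := by ring
      _ = (X 1) ^ M * ((X 0) ^ N * a) := by rw [← hp]
      _ = (X 0) ^ N * ((X 1) ^ M * a) := by ring
      _ = (X 0) ^ N * (g * q) := by rw [← hq]
      _ = g * ((X 0) ^ N * q) := by ring
  obtain ⟨p', hp'⟩ := hpr.pow_dvd_of_dvd_mul_left N hnd h3
  refine ⟨p', ?_⟩
  have hX : (X 0 : PSn 2) ^ N ≠ 0 := pow_ne_zero _ hpr.ne_zero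
  apply mul_left_cancel₀ hX
  rw [hp, hp']
  ring

/-- the derivation rule for powers -/
theorem der_pow {Q : Type*} [CommRing Q] {δ : Q → Q} (hm : ∀ a b, δ (a * b) = a * δ b + b * δ a)
    (a : Q) (n : ℕ) : δ (a ^ (n + 1)) = ((n + 1 : ℕ) : Q) * a ^ n * δ a := by
  induction n with
  | zero => simp
  | succ n ih =>
    rw [pow_succ, hm, ih]
    push_cast
    ring

theorem der_zero {Q : Type*} [CommRing Q] {δ : Q → Q} (ha : ∀ a b, δ (a + b) = δ a + δ b) :
    δ 0 = 0 := by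
  have := ha 0 0
  rw [add_zero] at this
  exact left_eq_add.1 this

section core

variable {f G Gy Gz : PS}

theorem mem_max_mk (hf : f ∈ maximalIdeal PS) [IsLocalRing (PS ⧸ Ideal.span {f})] (F : PS) :
    Ideal.Quotient.mk (Ideal.span {f}) F ∈ maximalIdeal (PS ⧸ Ideal.span {f}) ↔
      F ∈ maximalIdeal PS := by
  rw [mem_maximalIdeal, mem_maximalIdeal, mem_nonunits_iff, mem_nonunits_iff, not_iff_not]
  constructor
  · intro h
    obtain ⟨H, hH⟩ := h.exists_right_inv
    obtain ⟨H, rfl⟩ := Ideal.Quotient.mk_surjective H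
    rw [← map_mul, ← map_one (Ideal.Quotient.mk (Ideal.span {f})), Ideal.Quotient.eq,
      Ideal.mem_span_singleton] at hH
    obtain ⟨K, hK⟩ := hH
    have h1 : F * H = 1 + f * K := by rw [← hK]; ring
    have h2 : IsUnit (F * H) := by
      rw [h1, isUnit_iff_constantCoeff, map_add, map_mul, mem_max.1 hf, map_one, zero_mul,
        add_zero]
      exact isUnit_one
    exact isUnit_of_mul_isUnit_left h2
  · intro h
    exact h.map _

theorem map_max (hf : f ∈ maximalIdeal PS) [IsLocalRing (PS ⧸ Ideal.span {f})] :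
    maximalIdeal (PS ⧸ Ideal.span {f}) =
      (maximalIdeal PS).map (Ideal.Quotient.mk (Ideal.span {f})) := by
  ext q
  obtain ⟨F, rfl⟩ := Ideal.Quotient.mk_surjective q
  rw [mem_max_mk hf]
  constructor
  · intro h
    exact Ideal.mem_map_of_mem _ h
  · intro h
    rw [Ideal.mem_map_iff_of_surjective _ Ideal.Quotient.mk_surjective] at h
    obtain ⟨H, hH, hHF⟩ := h
    rw [Ideal.Quotient.eq, Ideal.mem_span_singleton] at hHF
    obtain ⟨K, hK⟩ := hHF
    have h1 : F = H - f * K := by rw [← hK]; ring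
    rw [h1]
    exact Ideal.sub_mem _ hH (Ideal.mul_mem_right _ _ hf)

theorem x_reg (hf : f = X 0 ^ 2 + G) (h0 : red 2 G ≠ 0) {w : PS ⧸ Ideal.span {f}}
    (hw : Ideal.Quotient.mk (Ideal.span {f}) (X 0) * w = 0) : w = 0 := by
  have hd := dom_PSn 2
  have hd3 := dom_PSn 3
  obtain ⟨W, rfl⟩ := Ideal.Quotient.mk_surjective w
  rw [← map_mul, Ideal.Quotient.eq_zero_iff_mem, Ideal.mem_span_singleton] at hw
  obtain ⟨H, hH⟩ := hw
  have h1 : red 2 f = red 2 G := by
    rw [hf, map_add, map_pow, red_X0]; ring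
  have h2 : red 2 H = 0 := by
    have h3 := congrArg (red 2) hH
    rw [map_mul, map_mul, red_X0, zero_mul, h1] at h3
    rcases mul_eq_zero.1 h3.symm with h4 | h4
    · exact absurd h4 h0
    · exact h4
  obtain ⟨H', rfl⟩ := dvd_of_red h2
  have h3 : (X 0 : PSn 3) ≠ 0 := prime_X0.ne_zero
  have h4 : W = f * H' := by
    apply mul_left_cancel₀ h3
    rw [hH]; ring
  rw [Ideal.Quotient.eq_zero_iff_mem, Ideal.mem_span_singleton, h4]
  exact Dvd.intro _ rfl

theorem syz_core (hf : f = X 0 ^ 2 + G) (h0 : red 2 G ≠ 0)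
    (hy : ∃ N : ℕ, (X 0 : PSn 2) ^ N ∈ Ideal.span {red 2 G, red 2 Gy, red 2 Gz})
    (hz : ∃ N : ℕ, (X 1 : PSn 2) ^ N ∈ Ideal.span {red 2 G, red 2 Gy, red 2 Gz})
    (A B C : PS ⧸ Ideal.span {f})
    (h1 : 2 * Ideal.Quotient.mk (Ideal.span {f}) (X 0) * C =
      Ideal.Quotient.mk (Ideal.span {f}) Gz * A)
    (h2 : 2 * Ideal.Quotient.mk (Ideal.span {f}) (X 0) * B =
      Ideal.Quotient.mk (Ideal.span {f}) Gy * A) :
    ∃ ε, A = 2 * Ideal.Quotient.mk (Ideal.span {f}) (X 0) * ε ∧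
      B = Ideal.Quotient.mk (Ideal.span {f}) Gy * ε ∧
      C = Ideal.Quotient.mk (Ideal.span {f}) Gz * ε := by
  have hrf : red 2 f = red 2 G := by
    rw [hf, map_add, map_pow, red_X0]; ring
  obtain ⟨a, rfl⟩ := Ideal.Quotient.mk_surjective A
  obtain ⟨b, rfl⟩ := Ideal.Quotient.mk_surjective B
  obtain ⟨c, rfl⟩ := Ideal.Quotient.mk_surjective C
  have key : ∀ K c : PS, 2 * Ideal.Quotient.mk (Ideal.span {f}) (X 0) *
      Ideal.Quotient.mk (Ideal.span {f}) c = Ideal.Quotient.mk (Ideal.span {f}) K *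
      Ideal.Quotient.mk (Ideal.span {f}) a → red 2 G ∣ red 2 K * red 2 a := by
    intro K c h
    have h3 : Ideal.Quotient.mk (Ideal.span {f}) (2 * X 0 * c) =
        Ideal.Quotient.mk (Ideal.span {f}) (K * a) := by
      rw [map_mul, map_mul, map_mul]; exact h
    rw [Ideal.Quotient.eq, Ideal.mem_span_singleton] at h3
    obtain ⟨L, hL⟩ := h3
    have h4 := congrArg (red 2) hL
    rw [map_sub, map_mul, map_mul, map_mul, map_mul, red_X0, hrf] at h4
    refine ⟨- red 2 L, ?_⟩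
    linear_combination -h4
  have hdiv := dvd_core h0 hy hz (key Gy b h2) (key Gz c h1)
  obtain ⟨s, hs⟩ := hdiv
  obtain ⟨s', rfl⟩ := red_surj (n := 2) s
  have h3 : red 2 (a - f * s') = 0 := by
    rw [map_sub, map_mul, hrf, hs, sub_self]
  obtain ⟨a', ha'⟩ := dvd_of_red h3
  have h4 : Ideal.Quotient.mk (Ideal.span {f}) a =
      Ideal.Quotient.mk (Ideal.span {f}) (X 0) * Ideal.Quotient.mk (Ideal.span {f}) a' := by
    rw [← map_mul, ← ha', Ideal.Quotient.eq, Ideal.mem_span_singleton]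
    refine ⟨s', ?_⟩
    ring
  have h2C : (C (1 / 2 : ℂ) : PS) * 2 = 1 := by
    have h5 : (2 : PS) = C (2 : ℂ) := by
      rw [map_ofNat]
    rw [h5, ← map_mul]
    norm_num
  have h22 : Ideal.Quotient.mk (Ideal.span {f}) (MvPowerSeries.C (1 / 2 : ℂ)) * 2 = 1 := by
    have h5 := congrArg (Ideal.Quotient.mk (Ideal.span {f})) h2C
    rw [map_mul, map_one, map_ofNat] at h5
    exact h5
  have hcan : ∀ u v : PS ⧸ Ideal.span {f},
      2 * Ideal.Quotient.mk (Ideal.span {f}) (X 0) * u =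
        2 * Ideal.Quotient.mk (Ideal.span {f}) (X 0) * v → u = v := by
    intro u v h
    have h5 : Ideal.Quotient.mk (Ideal.span {f}) (X 0) * (u - v) = 0 := by
      linear_combination Ideal.Quotient.mk (Ideal.span {f}) (MvPowerSeries.C (1 / 2 : ℂ)) * h -
        Ideal.Quotient.mk (Ideal.span {f}) (X 0) * (u - v) * h22
    exact sub_eq_zero.1 (x_reg hf h0 h5)
  refine ⟨Ideal.Quotient.mk (Ideal.span {f}) (MvPowerSeries.C (1 / 2 : ℂ)) *
    Ideal.Quotient.mk (Ideal.span {f}) a', ?_, ?_, ?_⟩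
  · rw [h4]
    linear_combination -(Ideal.Quotient.mk (Ideal.span {f}) (X 0) *
      Ideal.Quotient.mk (Ideal.span {f}) a') * h22
  · apply hcan
    rw [h2, h4]
    linear_combination -(Ideal.Quotient.mk (Ideal.span {f}) (X 0) *
      Ideal.Quotient.mk (Ideal.span {f}) a' * Ideal.Quotient.mk (Ideal.span {f}) Gy) * h22
  · apply hcan
    rw [h1, h4]
    linear_combination -(Ideal.Quotient.mk (Ideal.span {f}) (X 0) *
      Ideal.Quotient.mk (Ideal.span {f}) a' * Ideal.Quotient.mk (Ideal.span {f}) Gz) * h22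

end core

end H96
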