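import Pool.Agent.Helper96.LCY.Ade1

set_option autoImplicit false

/-!
Ring theory of `x ^ 2 + g(y, z) = 0` in three-variable power series: maximal ideal, embedding
dimension, the ideal of the partial derivatives.
-/

open MvPowerSeries LCY IsLocalRing

namespace H96

variable {f G Gy Gz : PS}

theorem X_mem_max (i : Fin 3) : (X i : PS) ∈ maximalIdeal PS := by
  rw [mem_max, constantCoeff_X]

theorem gen_core (hf : f ∈ maximalIdeal PS) [IsLocalRing (PS ⧸ Ideal.span {f})] :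
    maximalIdeal (PS ⧸ Ideal.span {f}) = Ideal.span
      {Ideal.Quotient.mk (Ideal.span {f}) (X 0), Ideal.Quotient.mk (Ideal.span {f}) (X 1),
        Ideal.Quotient.mk (Ideal.span {f}) (X 2)} := by
  apply le_antisymm
  · intro q hq
    obtain ⟨F, rfl⟩ := Ideal.Quotient.mk_surjective q
    rw [mem_max_mk hf, mem_max] at hq
    obtain ⟨H, rfl⟩ := exists_sum F hq
    rw [map_sum]
    refine Ideal.sum_mem _ fun i _ => ?_
    rw [map_mul]
    refine Ideal.mul_mem_left _ _ (Ideal.subset_span ?_)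
    fin_cases i
    · exact Or.inl rfl
    · exact Or.inr (Or.inl rfl)
    · exact Or.inr (Or.inr rfl)
  · rw [Ideal.span_le]
    rintro q (rfl | rfl | rfl)
    · exact (mem_max_mk hf _).2 (X_mem_max 0)
    · exact (mem_max_mk hf _).2 (X_mem_max 1)
    · exact (mem_max_mk hf _).2 (X_mem_max 2)

theorem emb_core (hf : f ∈ maximalIdeal PS ^ 2) [IsLocalRing (PS ⧸ Ideal.span {f})]
    (a b c : PS ⧸ Ideal.span {f})
    (h : a * Ideal.Quotient.mk (Ideal.span {f}) (X 0) +
      b * Ideal.Quotient.mk (Ideal.span {f}) (X 1) +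
      c * Ideal.Quotient.mk (Ideal.span {f}) (X 2) ∈ maximalIdeal (PS ⧸ Ideal.span {f}) ^ 2) :
    a ∈ maximalIdeal (PS ⧸ Ideal.span {f}) ∧ b ∈ maximalIdeal (PS ⧸ Ideal.span {f}) ∧
      c ∈ maximalIdeal (PS ⧸ Ideal.span {f}) := by
  have hf1 : f ∈ maximalIdeal PS := Ideal.pow_le_self (by norm_num) hf
  obtain ⟨a, rfl⟩ := Ideal.Quotient.mk_surjective a
  obtain ⟨b, rfl⟩ := Ideal.Quotient.mk_surjective b
  obtain ⟨c, rfl⟩ := Ideal.Quotient.mk_surjective c
  rw [map_max hf1, ← Ideal.map_pow, ← map_mul, ← map_mul, ← map_mul, ← map_add, ← map_add,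
    Ideal.mem_map_iff_of_surjective _ Ideal.Quotient.mk_surjective] at h
  obtain ⟨H, hH, hHF⟩ := h
  rw [Ideal.Quotient.eq, Ideal.mem_span_singleton] at hHF
  obtain ⟨K, hK⟩ := hHF
  have h1 : a * X 0 + b * X 1 + c * X 2 = H - f * K := by rw [← hK]; ring
  have h2 : a * X 0 + b * X 1 + c * X 2 ∈ maximalIdeal PS ^ 2 := by
    rw [h1]
    exact Ideal.sub_mem _ hH (Ideal.mul_mem_right _ _ hf)
  have h3 : ∀ i : Fin 3, lin i (a * X 0 + b * X 1 + c * X 2) = 0 := fun i => lin_sq i h2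
  have h4 : ∀ i j : Fin 3, j ≠ i → lin i (X j : PSn 3) = 0 := fun i j h => lin_X_ne h
  refine ⟨?_, ?_, ?_⟩
  · rw [mem_max_mk hf1, mem_max]
    have h5 := h3 0
    rw [lin_add, lin_add, lin_mul, lin_mul, lin_mul, lin_X_self, h4 0 1 (by decide),
      h4 0 2 (by decide), constantCoeff_X, constantCoeff_X, constantCoeff_X] at h5
    simpa using h5
  · rw [mem_max_mk hf1, mem_max]
    have h5 := h3 1
    rw [lin_add, lin_add, lin_mul, lin_mul, lin_mul, lin_X_self, h4 1 0 (by decide),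
      h4 1 2 (by decide), constantCoeff_X, constantCoeff_X, constantCoeff_X] at h5
    simpa using h5
  · rw [mem_max_mk hf1, mem_max]
    have h5 := h3 2
    rw [lin_add, lin_add, lin_mul, lin_mul, lin_mul, lin_X_self, h4 2 0 (by decide),
      h4 2 1 (by decide), constantCoeff_X, constantCoeff_X, constantCoeff_X] at h5
    simpa using h5

theorem lift_mem (hf : f = X 0 ^ 2 + G) {F : PS}
    (h : red 2 F ∈ Ideal.span {red 2 G, red 2 Gy, red 2 Gz}) :
    Ideal.Quotient.mk (Ideal.span {f}) F ∈ Ideal.span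
      {Ideal.Quotient.mk (Ideal.span {f}) (X 0), Ideal.Quotient.mk (Ideal.span {f}) Gy,
        Ideal.Quotient.mk (Ideal.span {f}) Gz} := by
  rw [Ideal.mem_span_insert] at h
  obtain ⟨α, t, ht, h⟩ := h
  rw [Ideal.mem_span_pair] at ht
  obtain ⟨β, γ, rfl⟩ := ht
  obtain ⟨α, rfl⟩ := red_surj (n := 2) α
  obtain ⟨β, rfl⟩ := red_surj (n := 2) β
  obtain ⟨γ, rfl⟩ := red_surj (n := 2) γ
  have h1 : red 2 (F - (α * G + (β * Gy + γ * Gz))) = 0 := by
    rw [map_sub, h]
    simp only [map_add, map_mul]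
    ring
  obtain ⟨K, hK⟩ := dvd_of_red h1
  have h2 : F = α * (f - X 0 ^ 2) + (β * Gy + γ * Gz) + X 0 * K := by
    rw [← hK, hf]; ring
  have hff : Ideal.Quotient.mk (Ideal.span {f}) f = 0 :=
    Ideal.Quotient.eq_zero_iff_mem.2 (Ideal.mem_span_singleton_self f)
  rw [h2]
  simp only [map_add, map_mul, map_sub, map_pow, hff]
  have e0 : Ideal.Quotient.mk (Ideal.span {f}) (X 0) ∈ Ideal.span
      {Ideal.Quotient.mk (Ideal.span {f}) (X 0), Ideal.Quotient.mk (Ideal.span {f}) Gy,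
        Ideal.Quotient.mk (Ideal.span {f}) Gz} := Ideal.subset_span (Or.inl rfl)
  have e1 : Ideal.Quotient.mk (Ideal.span {f}) Gy ∈ Ideal.span
      {Ideal.Quotient.mk (Ideal.span {f}) (X 0), Ideal.Quotient.mk (Ideal.span {f}) Gy,
        Ideal.Quotient.mk (Ideal.span {f}) Gz} := Ideal.subset_span (Or.inr (Or.inl rfl))
  have e2 : Ideal.Quotient.mk (Ideal.span {f}) Gz ∈ Ideal.span
      {Ideal.Quotient.mk (Ideal.span {f}) (X 0), Ideal.Quotient.mk (Ideal.span {f}) Gy,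
        Ideal.Quotient.mk (Ideal.span {f}) Gz} := Ideal.subset_span (Or.inr (Or.inr rfl))
  refine Ideal.add_mem _ (Ideal.add_mem _ ?_ (Ideal.add_mem _ ?_ ?_)) ?_
  · rw [zero_sub, pow_two]
    refine Ideal.mul_mem_left _ _ ((Ideal.neg_mem_iff _).2 (Ideal.mul_mem_left _ _ e0))
  · exact Ideal.mul_mem_left _ _ e1
  · exact Ideal.mul_mem_left _ _ e2
  · exact Ideal.mul_mem_right _ _ e0

theorem prim_core (hf : f = X 0 ^ 2 + G) (hfm : f ∈ maximalIdeal PS)
    [IsLocalRing (PS ⧸ Ideal.span {f})]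
    (hy : ∃ N : ℕ, (X 0 : PSn 2) ^ N ∈ Ideal.span {red 2 G, red 2 Gy, red 2 Gz})
    (hz : ∃ N : ℕ, (X 1 : PSn 2) ^ N ∈ Ideal.span {red 2 G, red 2 Gy, red 2 Gz}) :
    ∃ n : ℕ, maximalIdeal (PS ⧸ Ideal.span {f}) ^ n ≤ Ideal.span
      {Ideal.Quotient.mk (Ideal.span {f}) (X 0), Ideal.Quotient.mk (Ideal.span {f}) Gy,
        Ideal.Quotient.mk (Ideal.span {f}) Gz} := by
  refine Ideal.exists_pow_le_of_le_radical_of_fg ?_ ?_
  · rw [gen_core hfm, Ideal.span_le]
    obtain ⟨N, hN⟩ := hy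
    obtain ⟨M, hM⟩ := hz
    rintro q (rfl | rfl | rfl)
    · exact Ideal.le_radical (Ideal.subset_span (Or.inl rfl))
    · refine ⟨N, ?_⟩
      rw [← map_pow]
      refine lift_mem hf ?_
      rw [map_pow]
      have h1 : red 2 (X 1) = X 0 := red_Xs (n := 2) 0
      rw [h1]
      exact hN
    · refine ⟨M, ?_⟩
      rw [← map_pow]
      refine lift_mem hf ?_
      rw [map_pow]
      have h1 : red 2 (X 2) = X 1 := red_Xs (n := 2) 1
      rw [h1]
      exact hM
  · rw [gen_core hfm]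
    exact Submodule.fg_span (Set.toFinite _)

theorem local_core (hfm : f ∈ maximalIdeal PS) : IsLocalRing (PS ⧸ Ideal.span {f}) := by
  have h1 : Ideal.span {f} ≠ ⊤ := by
    intro h
    have h2 : Ideal.span {f} ≤ maximalIdeal PS := (Ideal.span_singleton_le_iff_mem _).2 hfm
    rw [h] at h2
    exact (maximalIdeal.isMaximal PS).ne_top (top_le_iff.1 h2)
  have h2 : Nontrivial (PS ⧸ Ideal.span {f}) := Ideal.Quotient.nontrivial_iff.2 h1
  exact IsLocalRing.of_surjective' (Ideal.Quotient.mk (Ideal.span {f}))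
    Ideal.Quotient.mk_surjective

end H96
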